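import Pool.Agent.P.MP_f7f1a6_co.A.Main

namespace Pool.Agent.Results.MP_f7f1a6_co.AllGroups

open Pool.Agent.P.MP_f7f1a6_co
open scoped Pointwise

/-- The implication of Q1 fails exactly in the infinite discrete abelian groups, and there it fails
for a set with `A - A + S` the whole group for every `A` of positive upper Banach density. -/
theorem result (G : Type) [AddCommGroup G] [TopologicalSpace G] [DiscreteTopology G] :
    List.TFAE [Infinite G, ∃ S : Set G, IsDBExpanding S ∧ ¬ IsVanDerCorput S,
      ∃ S : Set G, (∀ A : Set G, 0 < upperBanachDensity A → A - A + S = Set.univ) ∧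
        ¬ IsVanDerCorput S] := by
  tfae_have 1 → 3 := fun _ => A.of_infinite
  tfae_have 3 → 2 := fun ⟨S, h1, h2⟩ =>
    ⟨S, fun A hA => ⟨∅, 1, one_pos, h1 A hA ▸ Set.subset_univ _⟩, h2⟩
  tfae_have 2 → 1 := fun ⟨S, h1, h2⟩ => not_finite_iff_infinite.1 fun _ => h2 (A.of_finite h1)
  tfae_finish

end Pool.Agent.Results.MP_f7f1a6_co.AllGroups
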